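import Pool.Agent.Helper38.Thick.Chain

/-!
# A point and the frame of a basis in rank four
-/

set_option autoImplicit false
set_option linter.unusedSectionVars false

namespace Pool.Agent.Helper28.SL

open Pool.Agent.Helper28.BPack

variable {L : Type} [Lattice L] [BoundedOrder L] [Finite L] [IsUpperModularLattice L]

variable {b : Fin 4 → L} (hb : ∀ i, IsAtom (b i))
  (hr : rk ((Finset.univ : Finset (Fin 4)).sup b) = 4)
include hb hr

theorem frame_span (S : Finset (Fin 4)) : rk (S.sup b) = S.card := by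
  have h1 := rk_sup_finset_le (⊥ : L) S b (fun j _ => hb j)
  rw [bot_sup_eq, rk_bot, zero_add] at h1
  have h2 := rk_sup_finset_le (S.sup b) Sᶜ b (fun j _ => hb j)
  rw [← Finset.sup_union, Finset.union_compl, hr, Finset.card_compl, Fintype.card_fin] at h2
  have h3 : S.card ≤ 4 := by simpa using Finset.card_le_univ S
  omega

theorem frame_inter (S T : Finset (Fin 4)) {x : L} (hx : IsAtom x) (h1 : x ≤ S.sup b)
    (h2 : x ≤ T.sup b) : x ≤ (S ∩ T).sup b := by
  classical
  by_contra h
  obtain ⟨C, hCS, hC1, hC2⟩ := exists_basis ((S ∩ T).sup b ⊔ x) (S.image b) (by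
    intro a ha
    obtain ⟨i, -, rfl⟩ := Finset.mem_image.mp ha
    exact hb i)
  have e1 : (S.image b).sup id = S.sup b := by rw [Finset.sup_image]; rfl
  have e2 : (S ∩ T).sup b ⊔ x ⊔ S.sup b = S.sup b :=
    sup_eq_right.mpr (sup_le (Finset.sup_mono Finset.inter_subset_left) h1)
  rw [e1, e2] at hC1 hC2
  rw [frame_span hb hr S, rk_sup_atom hx h, frame_span hb hr] at hC2
  have h3 := rk_sup_finset_le (T.sup b) C id (by
    intro a ha
    obtain ⟨i, -, hi⟩ := Finset.mem_image.mp (hCS ha)
    rw [id, ← hi]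
    exact hb i)
  have h4 : (S ∪ T).sup b ≤ T.sup b ⊔ C.sup id := by
    rw [Finset.sup_union]
    refine sup_le ?_ le_sup_left
    rw [← hC1]
    exact sup_le (le_sup_of_le_left (sup_le (Finset.sup_mono Finset.inter_subset_right) h2))
      le_sup_right
  have h5 := rk_mono h4
  rw [frame_span hb hr] at h5 h3
  have h6 := Finset.card_union_add_card_inter S T
  omega

omit hr in
theorem sup_pair (i j : Fin 4) : ({i, j} : Finset (Fin 4)).sup b = b i ⊔ b j := by
  rw [Finset.sup_insert, Finset.sup_singleton]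

/-- **Lines.** A point which is not in the basis is on at most one line of the frame. -/
theorem frame_line {x : L} (hx : IsAtom x) (hxb : ∀ i, x ≠ b i) {i j k l : Fin 4} (hij : i ≠ j)
    (hkl : k ≠ l) (h1 : x ≤ b i ⊔ b j) (h2 : x ≤ b k ⊔ b l) : b i ⊔ b j = b k ⊔ b l := by
  rw [← sup_pair hb, ← sup_pair hb] at *
  have h3 := frame_inter hb hr _ _ hx h1 h2
  have hcard : ({i, j} : Finset (Fin 4)).card = 2 := Finset.card_pair hij
  have hcard' : ({k, l} : Finset (Fin 4)).card = 2 := Finset.card_pair hkl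
  have h4 := rk_mono h3
  rw [rk_atom hx, frame_span hb hr] at h4
  have h5 : (({i, j} : Finset (Fin 4)) ∩ {k, l}).card ≠ 1 := by
    intro h6
    obtain ⟨m, hm⟩ := Finset.card_eq_one.mp h6
    rw [hm, Finset.sup_singleton] at h3
    exact hxb m (atom_eq hx (hb m) h3)
  have h6 := Finset.card_le_card (Finset.inter_subset_left : ({i, j} : Finset (Fin 4)) ∩ {k, l} ⊆ _)
  have h7 : ({i, j} : Finset (Fin 4)) ∩ {k, l} = {i, j} :=
    Finset.eq_of_subset_of_card_le Finset.inter_subset_left (by omega)
  have h8 : ({i, j} : Finset (Fin 4)) ∩ {k, l} = {k, l} :=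
    Finset.eq_of_subset_of_card_le Finset.inter_subset_right (by omega)
  rw [← h7, h8]

open Classical in
/-- **Planes.** A point which is not in the basis is on at most two planes of the frame. -/
theorem frame_plane {x : L} (hx : IsAtom x) (hxb : ∀ i, x ≠ b i) :
    ((Finset.univ : Finset (Fin 4)).filter
      (fun i => x ≤ ((Finset.univ : Finset (Fin 4)).erase i).sup b)).card ≤ 2 := by
  by_contra hcon
  obtain ⟨i, hi, j, hj, k, hk, hij, hik, hjk⟩ := Finset.two_lt_card.mp (not_le.mp hcon)
  have hi' := (Finset.mem_filter.mp hi).2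
  have hj' := (Finset.mem_filter.mp hj).2
  have hk' := (Finset.mem_filter.mp hk).2
  have h1 := frame_inter hb hr _ _ hx (frame_inter hb hr _ _ hx hi' hj') hk'
  have h2 : ((((Finset.univ : Finset (Fin 4)).erase i) ∩ ((Finset.univ : Finset (Fin 4)).erase j)) ∩
      ((Finset.univ : Finset (Fin 4)).erase k)).card = 1 := by
    clear hi hj hk hi' hj' hk' h1 hcon
    revert i j k
    decide
  obtain ⟨m, hm⟩ := Finset.card_eq_one.mp h2
  rw [hm, Finset.sup_singleton] at h1
  exact hxb m (atom_eq hx (hb m) h1)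

open Classical in
/-- The lines of the frame. -/
noncomputable def frL (b : Fin 4 → L) : Finset L :=
  ((Finset.univ : Finset (Fin 4 × Fin 4)).filter (fun p => p.1 ≠ p.2)).image
    (fun p => b p.1 ⊔ b p.2)

open Classical in
/-- The planes of the frame. -/
noncomputable def frP (b : Fin 4 → L) : Finset L :=
  (Finset.univ : Finset (Fin 4)).image (fun i => ((Finset.univ : Finset (Fin 4)).erase i).sup b)

omit hb hr in
theorem mem_frL {i j : Fin 4} (hij : i ≠ j) : b i ⊔ b j ∈ frL b := by
  classical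
  exact Finset.mem_image.mpr ⟨(i, j), Finset.mem_filter.mpr ⟨Finset.mem_univ _, hij⟩, rfl⟩

omit hb hr in
theorem mem_frP {i j k : Fin 4} (hij : i ≠ j) (hik : i ≠ k) (hjk : j ≠ k) :
    b i ⊔ b j ⊔ b k ∈ frP b := by
  classical
  obtain ⟨m, hm⟩ : ∃ m : Fin 4, (Finset.univ : Finset (Fin 4)).erase m = {i, j, k} := by
    revert i j k
    decide
  refine Finset.mem_image.mpr ⟨m, Finset.mem_univ _, ?_⟩
  rw [hm, Finset.sup_insert, Finset.sup_insert, Finset.sup_singleton, sup_assoc]

theorem rk_frL {g : L} (hg : g ∈ frL b) : rk g = 2 := by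
  classical
  obtain ⟨p, hp, rfl⟩ := Finset.mem_image.mp hg
  have h1 := (Finset.mem_filter.mp hp).2
  rw [← sup_pair hb, frame_span hb hr, Finset.card_pair h1]

theorem rk_frP {H : L} (hH : H ∈ frP b) : rk H = 3 := by
  classical
  obtain ⟨i, -, rfl⟩ := Finset.mem_image.mp hH
  rw [frame_span hb hr, Finset.card_erase_of_mem (Finset.mem_univ _), Finset.card_univ,
    Fintype.card_fin]

open Classical in
/-- A point which is not in the basis is on at most one line of the frame. -/
theorem card_frL_le {x : L} (hx : IsAtom x) (hxb : ∀ i, x ≠ b i) :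
    ((frL b).filter (fun g => x ≤ g)).card ≤ 1 := by
  rw [Finset.card_le_one]
  intro g hg h hh
  obtain ⟨hg1, hg2⟩ := Finset.mem_filter.mp hg
  obtain ⟨hh1, hh2⟩ := Finset.mem_filter.mp hh
  obtain ⟨p, hp, rfl⟩ := Finset.mem_image.mp hg1
  obtain ⟨q, hq, rfl⟩ := Finset.mem_image.mp hh1
  exact frame_line hb hr hx hxb (Finset.mem_filter.mp hp).2 (Finset.mem_filter.mp hq).2 hg2 hh2

open Classical in
/-- A point which is not in the basis is on at most two planes of the frame. -/
theorem card_frP_le {x : L} (hx : IsAtom x) (hxb : ∀ i, x ≠ b i) :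
    ((frP b).filter (fun g => x ≤ g)).card ≤ 2 := by
  refine le_trans ?_ (frame_plane hb hr hx hxb)
  have h1 : (frP b).filter (fun g => x ≤ g) ⊆ ((Finset.univ : Finset (Fin 4)).filter
      (fun i => x ≤ ((Finset.univ : Finset (Fin 4)).erase i).sup b)).image
      (fun i => ((Finset.univ : Finset (Fin 4)).erase i).sup b) := by
    intro g hg
    obtain ⟨hg1, hg2⟩ := Finset.mem_filter.mp hg
    obtain ⟨i, -, rfl⟩ := Finset.mem_image.mp hg1
    exact Finset.mem_image.mpr ⟨i, Finset.mem_filter.mpr ⟨Finset.mem_univ _, hg2⟩, rfl⟩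
  exact (Finset.card_le_card h1).trans Finset.card_image_le

end Pool.Agent.Helper28.SL
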