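import Pool.Agent.Helper38.Thick.Chain

/-!
# Rank four: few points outside a plane
-/

set_option autoImplicit false
set_option linter.unusedSectionVars false

namespace Pool.Agent.Helper28.SL

open Pool.Agent.Helper28.BPack Pool.Agent.Helper61.Motz Pool.Agent.Helper38.Thick

variable {L : Type} [Lattice L] [BoundedOrder L] [Finite L] [IsUpperModularLattice L]

open Classical in
/-- **Few points off a plane `P`.**  If the number of points off `P` is at most the number of the
points of `P` and at most the number of lines of `P` through every point of `P`, then all points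
off `P` can be deleted one after the other. -/
theorem crit4_plane [DecidableEq L] {A : Finset L} (hA : ∀ a ∈ A, IsAtom a)
    (hr : rk (A.sup id) = 4) {P : L} (hP : rk P = 3)
    (hP3 : rk ((A.filter (fun a => a ≤ P)).sup id) = 3)
    (hB : (A.filter (fun a => ¬ a ≤ P)).card ≤ (A.filter (fun a => a ≤ P)).card)
    (hd : ∀ x ∈ A, x ≤ P → (A.filter (fun a => ¬ a ≤ P)).card ≤
      (((A.filter (fun a => a ≤ P)).erase x).image (fun y => x ⊔ y)).card) : Crit4 A := by
  obtain ⟨n, hn⟩ : ∃ n, (A.filter (fun a => ¬ a ≤ P)).card = n := ⟨_, rfl⟩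
  induction n generalizing A with
  | zero =>
    exfalso
    rw [Finset.card_eq_zero] at hn
    have h1 : A.sup id ≤ P := by
      refine Finset.sup_le (fun a ha => ?_)
      by_contra h
      have h2 : a ∈ A.filter (fun a => ¬ a ≤ P) := Finset.mem_filter.mpr ⟨ha, h⟩
      rw [hn] at h2
      exact absurd h2 (Finset.notMem_empty _)
    have h2 := rk_mono h1
    omega
  | succ n ih =>
    set B := A.filter (fun a => a ≤ P) with hBdef
    set W := A.filter (fun a => ¬ a ≤ P) with hWdef
    have hmB : ∀ a, a ∈ B ↔ a ∈ A ∧ a ≤ P := fun a => by rw [hBdef, Finset.mem_filter]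
    have hmW : ∀ a, a ∈ W ↔ a ∈ A ∧ ¬ a ≤ P := fun a => by rw [hWdef, Finset.mem_filter]
    have hsupB : B.sup id = P := eq_of_le_of_rk
      (Finset.sup_le (fun a ha => ((hmB a).mp ha).2)) (by rw [hP, hP3])
    obtain ⟨z, hz⟩ : W.Nonempty := Finset.card_pos.mp (by omega)
    obtain ⟨hzA, hzP⟩ := (hmW z).mp hz
    have hWe : (W.erase z).card = n := by rw [Finset.card_erase_of_mem hz, hn]; rfl
    have hBe : (A.erase z).filter (fun a => a ≤ P) = B := by
      ext a
      rw [Finset.mem_filter, Finset.mem_erase, hmB]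
      constructor
      · rintro ⟨⟨-, h1⟩, h2⟩
        exact ⟨h1, h2⟩
      · rintro ⟨h1, h2⟩
        exact ⟨⟨fun e => hzP (e ▸ h2), h1⟩, h2⟩
    have hWe' : (A.erase z).filter (fun a => ¬ a ≤ P) = W.erase z := by
      ext a
      rw [Finset.mem_filter, Finset.mem_erase, Finset.mem_erase, hmW]
      tauto
    by_cases hn0 : n = 0
    · -- only one point off `P`
      have h1 : A.erase z = B := by
        ext a
        rw [Finset.mem_erase, hmB]
        constructor
        · rintro ⟨h1, h2⟩
          refine ⟨h2, ?_⟩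
          by_contra h3
          have h4 : a ∈ W.erase z := Finset.mem_erase.mpr ⟨h1, (hmW a).mpr ⟨h2, h3⟩⟩
          have h5 := Finset.card_pos.mpr ⟨a, h4⟩
          omega
        · rintro ⟨h1, h2⟩
          exact ⟨fun e => hzP (e ▸ h2), h1⟩
      have h2 : rk ((A.erase z).sup id) = 3 := by rw [h1, hP3]
      refine crit4_of_crit3 hA hzA h2 ?_ (Pool.Agent.Helper80.BP.crit3_all _
        (fun a ha => hA a (Finset.mem_of_mem_erase ha)) h2)
      rw [h1, hsupB]
      exact hzP
    · -- the point `x`
      have hxz : ∀ x, x ∈ B → x ≠ z := fun x hx e => hzP (e ▸ ((hmB x).mp hx).2)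
      obtain ⟨x, hxB, hx⟩ : ∃ x ∈ B, ∀ z2 ∈ W.erase z, ¬ z2 ≤ z ⊔ x := by
        by_contra hcon
        push Not at hcon
        choose! f hf1 hf2 using hcon
        have h1 : B.card ≤ (W.erase z).card := by
          refine Finset.card_le_card_of_injOn f (fun x hx => hf1 x hx) ?_
          intro x hx y hy e
          by_contra hxy
          have hxB := (hmB x).mp hx
          have hyB := (hmB y).mp hy
          have h2 := hf2 x hx
          have h3 := hf2 y hy
          rw [← e] at h3
          have h4 := Finset.mem_erase.mp (hf1 x hx)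
          have h5 := (hmW _).mp h4.2
          have e1 : z ⊔ f x = z ⊔ x := line_of (hA z hzA) (hA _ h5.1) (Ne.symm h4.1) le_sup_left h2
            (rk_line (hA z hzA) (hA x hxB.1) (hxz x hx).symm)
          have e2 : z ⊔ f x = z ⊔ y := line_of (hA z hzA) (hA _ h5.1) (Ne.symm h4.1) le_sup_left h3
            (rk_line (hA z hzA) (hA y hyB.1) (hxz y hy).symm)
          have e3 : x ⊔ y = z ⊔ x := line_of (hA x hxB.1) (hA y hyB.1) hxy le_sup_right
            (by rw [← e1, e2]; exact le_sup_right)
            (rk_line (hA z hzA) (hA x hxB.1) (hxz x hx).symm)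
          exact hzP ((le_sup_left : z ≤ z ⊔ x).trans (e3.symm.le.trans (sup_le hxB.2 hyB.2)))
        omega
      obtain ⟨hxA, hxP⟩ := (hmB x).mp hxB
      have hzx2 : rk (z ⊔ x) = 2 := rk_line (hA z hzA) (hA x hxA) (hxz x hxB).symm
      -- the line `l`
      obtain ⟨l, hl, hlz⟩ : ∃ l ∈ (B.erase x).image (fun y => x ⊔ y),
          ∀ z2 ∈ W.erase z, ¬ z2 ≤ z ⊔ l := by
        by_contra hcon
        push Not at hcon
        choose! f hf1 hf2 using hcon
        have hline : ∀ l ∈ (B.erase x).image (fun y => x ⊔ y), x ≤ l ∧ l ≤ P ∧ rk l = 2 := by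
          intro l hl
          obtain ⟨y, hy, rfl⟩ := Finset.mem_image.mp hl
          obtain ⟨hyx, hyB⟩ := Finset.mem_erase.mp hy
          obtain ⟨hyA, hyP⟩ := (hmB y).mp hyB
          exact ⟨le_sup_left, sup_le hxP hyP, rk_line (hA x hxA) (hA y hyA) hyx.symm⟩
        have hpl : ∀ l ∈ (B.erase x).image (fun y => x ⊔ y), rk (z ⊔ l) = 3 := by
          intro l hl
          obtain ⟨-, h2, h3⟩ := hline l hl
          rw [sup_comm, rk_sup_atom (hA z hzA) (fun h => hzP (h.trans h2)), h3]
        have h1 : ((B.erase x).image (fun y => x ⊔ y)).card ≤ (W.erase z).card := by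
          refine Finset.card_le_card_of_injOn f (fun l hl => hf1 l hl) ?_
          intro l hl l' hl' e
          by_contra hll
          obtain ⟨k1, k2, k3⟩ := hline l hl
          obtain ⟨m1, m2, m3⟩ := hline l' hl'
          have h2 := hf2 l hl
          have h3 := hf2 l' hl'
          rw [← e] at h3
          have h5 := (hmW _).mp (Finset.mem_of_mem_erase (hf1 l hl))
          have hne : z ⊔ l ≠ z ⊔ l' := by
            intro e1
            have h6 : l ⊔ l' ≤ z ⊔ l := sup_le le_sup_right (e1 ▸ le_sup_right)
            have h7 : rk (l ⊔ l') ≤ 2 := by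
              by_contra h8
              have h9 : l ⊔ l' = P := eq_of_le_of_rk (sup_le k2 m2) (by omega)
              have h10 : P = z ⊔ l := eq_of_le_of_rk (h9 ▸ h6) (by rw [hP, hpl l hl])
              exact hzP (by rw [h10]; exact le_sup_left)
            have e2 : l = l ⊔ l' := eq_of_le_of_rk le_sup_left (by omega)
            have e3 : l' = l ⊔ l' := eq_of_le_of_rk le_sup_right (by omega)
            exact hll (e2.trans e3.symm)
          exact hx _ (hf1 l hl) (inter_line (hpl l hl) (hpl l' hl') hzx2 (hA _ h5.1)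
            (sup_le le_sup_left (k1.trans le_sup_right)) (sup_le le_sup_left (m1.trans le_sup_right))
            h2 h3 hne)
        have h2 := hd x hxA hxP
        omega
      obtain ⟨y, hy, rfl⟩ := Finset.mem_image.mp hl
      obtain ⟨hyx, hyB⟩ := Finset.mem_erase.mp hy
      obtain ⟨hyA, hyP⟩ := (hmB y).mp hyB
      have hxy2 : rk (x ⊔ y) = 2 := rk_line (hA x hxA) (hA y hyA) hyx.symm
      have hzxy : ¬ z ≤ x ⊔ y := fun h => hzP (h.trans (sup_le hxP hyP))
      have hpl3 : rk (z ⊔ (x ⊔ y)) = 3 := by
        rw [sup_comm, rk_sup_atom (hA z hzA) hzxy, hxy2]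
      refine crit4_peel hA hzA hxA hyA hyx.symm hzxy ?_ ?_
      · intro q hq hqle
        rw [sup_assoc] at hqle
        by_cases hqP : q ≤ P
        · right
          refine inter_line hpl3 hP hxy2 (hA q hq) le_sup_right (sup_le hxP hyP) hqle hqP ?_
          intro e
          exact hzP (by rw [← e]; exact le_sup_left)
        · left
          by_contra hqz
          exact hlz q (Finset.mem_erase.mpr ⟨hqz, (hmW q).mpr ⟨hq, hqP⟩⟩) hqle
      · refine ih (fun a ha => hA a (Finset.mem_of_mem_erase ha)) ?_ ?_ ?_ ?_ ?_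
        · -- rank four
          obtain ⟨w, hw⟩ : (W.erase z).Nonempty := Finset.card_pos.mp (by omega)
          obtain ⟨hwz, hwW⟩ := Finset.mem_erase.mp hw
          obtain ⟨hwA, hwP⟩ := (hmW w).mp hwW
          have h1 : P ⊔ w ≤ (A.erase z).sup id := by
            refine sup_le ?_ (Finset.le_sup (f := id) (Finset.mem_erase.mpr ⟨hwz, hwA⟩))
            rw [← hsupB]
            refine Finset.sup_mono (fun a ha => ?_)
            exact Finset.mem_erase.mpr ⟨hxz a ha, ((hmB a).mp ha).1⟩
          have h2 := rk_mono h1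
          rw [rk_sup_atom (hA w hwA) hwP, hP] at h2
          have h3 : (A.erase z).sup id ≤ A.sup id := Finset.sup_mono (Finset.erase_subset _ _)
          have h4 := rk_mono h3
          omega
        · rw [hBe]
          exact hP3
        · rw [hBe, hWe']
          omega
        · intro a ha haP
          rw [hBe, hWe']
          have h1 := hd a (Finset.mem_of_mem_erase ha) haP
          omega
        · rw [hWe', hWe]

end Pool.Agent.Helper28.SL
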